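import Pool.Agent.H81.GT.TargetsT

/-!
Row PKB of the board g_modules: kernel of the wave localized to a cap.
-/

set_option autoImplicit false

namespace Pool.Agent.H33.G

open MeasureTheory Set FourierTransform
open scoped ENNReal NNReal RealInnerProductSpace
open Pool.Agent.H83.LS Pool.Agent.H81.GT Pool.Agent.H19.LS
open Pool.Agent.H83.G (Z TF Rg Cls pl Lo Bp TP)

theorem exists_bump (n : ℕ) : ∃ β : EE n → ℝ, ContDiff ℝ (⊤ : ℕ∞) β ∧
    (∀ x, 1 ≤ ‖x‖ → β x = 0) ∧ (∀ x, 0 ≤ β x) ∧ Integrable β ∧ ∫ x, β x = 1 := by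
  let b : ContDiffBump (0 : EE n) := ⟨1 / 2, 1, by norm_num, by norm_num⟩
  refine ⟨b.normed volume, b.contDiff_normed, fun x hx => ?_, fun x => b.nonneg_normed x,
    b.integrable_normed, b.integral_normed⟩
  by_contra h
  have h1 : x ∈ Function.support (b.normed volume) := h
  rw [b.support_normed_eq, mem_ball_zero_iff] at h1
  exact absurd h1 (not_lt.2 hx)

theorem int_shift {n : ℕ} {β : EE n → ℝ} (hβi : Integrable β) {σ : ℝ} (hσ : 0 < σ) (p : EE n) :
    Integrable (fun θ => β (σ⁻¹ • (p - θ))) ∧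
      ∫ θ, β (σ⁻¹ • (p - θ)) = σ ^ n * ∫ θ, β θ := by
  have h1 : Integrable (fun θ => β (σ⁻¹ • θ)) := hβi.comp_smul (inv_ne_zero hσ.ne')
  refine ⟨h1.comp_sub_left p, ?_⟩
  rw [integral_sub_left_eq_self (fun θ => β (σ⁻¹ • θ)) volume p,
    Measure.integral_comp_smul volume β σ⁻¹, smul_eq_mul]
  congr 1
  rw [finrank_euclideanSpace_fin, inv_pow, inv_inv, abs_of_pos (pow_pos hσ n)]

theorem pf_PKB (hPIE : T_PIE) (hACS : T_ACS) : T_PKB := by
  intro n N κ a hn hκ ha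
  obtain ⟨β, hβs, hβ0, hβn, hβi, hβ1⟩ := exists_bump n
  obtain ⟨C, hC0, hC⟩ := hPIE n N κ a β hn hκ ha hβs hβ0
  refine ⟨C, hC0, ?_⟩
  intro η s z hs hs1
  obtain ⟨hA1, -, hA3⟩ := hACS n κ s η a hκ ha hs
  obtain ⟨σ, hσ⟩ : ∃ σ, σ = sg s z.2.2 := ⟨_, rfl⟩
  have hw : 0 ≤ s ^ 2 * |z.2.2| := by positivity
  have hsq : 1 ≤ Real.sqrt (1 + s ^ 2 * |z.2.2|) := by
    rw [Real.one_le_sqrt]
    linarith
  have hσe : σ = s / (16 * Real.sqrt (1 + s ^ 2 * |z.2.2|)) := hσ
  have hσ0 : 0 < σ := by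
    rw [hσe]
    positivity
  have hσ1 : σ ≤ s / 16 := by
    rw [hσe, div_le_div_iff₀ (by positivity) (by norm_num)]
    nlinarith
  have hσ2 : σ ^ 2 * |z.2.2| ≤ 1 := by
    rw [hσe, div_pow, mul_pow, Real.sq_sqrt (by linarith), div_mul_eq_mul_div,
      div_le_one (by positivity)]
    linarith
  -- the kernels
  obtain ⟨t, ht⟩ : ∃ t, t = tz z := ⟨_, rfl⟩
  obtain ⟨x, hx⟩ : ∃ x, x = xz z := ⟨_, rfl⟩
  obtain ⟨p, hp⟩ : ∃ p : EE (n + 1) → EE n, p = fun ξ => (al ξ)⁻¹ • pr ξ := ⟨_, rfl⟩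
  obtain ⟨c, hc⟩ : ∃ c : EE (n + 1) → ℂ, c = fun ξ => e (inner ℝ x ξ) *
    (e (t * ‖ξ‖) * ac a η s ξ) := ⟨_, rfl⟩
  have hK : Kt (ac a η s) t x = ∫ ξ, c ξ := by
    rw [hc]
    rfl
  have hKθ : ∀ θ, Kt (fun ξ => ac a η s ξ * (β (σ⁻¹ • ((al ξ)⁻¹ • pr ξ - θ)) : ℂ)) t x =
      ∫ ξ, c ξ * (β (σ⁻¹ • (p ξ - θ)) : ℂ) := by
    intro θ
    rw [hc, hp]
    unfold Kt MK
    refine integral_congr_ae (Filter.Eventually.of_forall fun ξ => ?_)
    simp only
    ring
  have hcc : Continuous c := by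
    rw [hc]
    have h1 := hA1.1.continuous
    exact (continuous_e.comp (by fun_prop)).mul ((continuous_e.comp (by fun_prop)).mul h1)
  have hci : Integrable c := by
    refine hcc.integrable_of_hasCompactSupport ?_
    rw [hc]
    exact (hA1.cs.mul_left).mul_left
  have hpm : Measurable p := by
    rw [hp]
    have h1 : Measurable (fun ξ : EE (n + 1) => al ξ) := by
      unfold al
      fun_prop
    have h2 : Measurable (fun ξ : EE (n + 1) => pr ξ) := by
      unfold pr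
      fun_prop
    exact h1.inv.smul h2
  -- Fubini
  have hF : Integrable (Function.uncurry fun (ξ : EE (n + 1)) (θ : EE n) =>
      c ξ * (β (σ⁻¹ • (p ξ - θ)) : ℂ)) (volume.prod volume) := by
    rw [integrable_prod_iff]
    · refine ⟨Filter.Eventually.of_forall fun ξ => ?_, ?_⟩
      · simp only [Function.uncurry]
        exact ((int_shift hβi hσ0 (p ξ)).1.ofReal).const_mul (c ξ)
      · have h1 : ∀ ξ, ∫ θ, ‖Function.uncurry (fun (ξ : EE (n + 1)) (θ : EE n) =>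
            c ξ * (β (σ⁻¹ • (p ξ - θ)) : ℂ)) (ξ, θ)‖ = ‖c ξ‖ * σ ^ n := by
          intro ξ
          simp only [Function.uncurry, norm_mul, Complex.norm_real]
          rw [integral_const_mul]
          have h2 : ∀ θ, ‖β (σ⁻¹ • (p ξ - θ))‖ = β (σ⁻¹ • (p ξ - θ)) := fun θ =>
            Real.norm_of_nonneg (hβn _)
          simp only [h2]
          rw [(int_shift hβi hσ0 (p ξ)).2, hβ1, mul_one]
        simp only [h1]
        exact hci.norm.mul_const _
    · refine Measurable.aestronglyMeasurable ?_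
      have h1 : Measurable fun q : EE (n + 1) × EE n => c q.1 := hcc.measurable.comp measurable_fst
      have h2 : Measurable fun q : EE (n + 1) × EE n => β (σ⁻¹ • (p q.1 - q.2)) :=
        hβs.continuous.measurable.comp
          (((hpm.comp measurable_fst).sub measurable_snd).const_smul σ⁻¹)
      exact h1.mul (Complex.measurable_ofReal.comp h2)
  have hswap := integral_integral_swap hF
  have hL : ∫ ξ, ∫ θ, c ξ * (β (σ⁻¹ • (p ξ - θ)) : ℂ) = ((σ ^ n : ℝ) : ℂ) * ∫ ξ, c ξ := by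
    rw [← integral_const_mul]
    refine integral_congr_ae (Filter.Eventually.of_forall fun ξ => ?_)
    simp only
    rw [integral_const_mul, integral_complex_ofReal, (int_shift hβi hσ0 (p ξ)).2, hβ1, mul_one]
    ring
  have hmain : ((σ ^ n : ℝ) : ℂ) * Kt (ac a η s) t x = ∫ θ, Kt (fun ξ => ac a η s ξ *
      (β (σ⁻¹ • ((al ξ)⁻¹ • pr ξ - θ)) : ℂ)) t x := by
    rw [hK, ← hL, hswap]
    exact integral_congr_ae (Filter.Eventually.of_forall fun θ => (hKθ θ).symm)
  have hTh : MeasurableSet (Th η s) := by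
    have h1 : IsClosed {θ : EE n | ‖θ - η‖ ≤ 4 * s} := isClosed_le (by fun_prop) continuous_const
    have h2 : IsClosed {θ : EE n | ‖θ‖ ≤ 1 / 3} := isClosed_le (by fun_prop) continuous_const
    exact h1.measurableSet.inter h2.measurableSet
  have hb : ∀ θ, ‖Kt (fun ξ => ac a η s ξ * (β (σ⁻¹ • ((al ξ)⁻¹ • pr ξ - θ)) : ℂ)) t x‖ₑ ≤
      (Th η s).indicator (fun θ => ENNReal.ofReal (C * σ ^ n) *
        ENNReal.ofReal ((Wz s z θ ^ N)⁻¹)) θ := by
    intro θ
    by_cases hθ : θ ∈ Th η s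
    · rw [indicator_of_mem hθ, ← ENNReal.ofReal_mul (by positivity), ← ofReal_norm]
      refine ENNReal.ofReal_le_ofReal ?_
      have h1 := hC η θ s σ z hs hs1 hσ0 hσ1 hσ2 hθ.1 hθ.2
      rw [← ht, ← hx] at h1
      unfold Wz
      rw [← hσ]
      exact h1
    · rw [indicator_of_notMem hθ]
      have h0 : (fun ξ => ac a η s ξ * (β (σ⁻¹ • ((al ξ)⁻¹ • pr ξ - θ)) : ℂ)) = fun _ => 0 := by
        funext ξ
        by_contra hne
        apply hθ
        obtain ⟨h1, h2⟩ := mul_ne_zero_iff.1 hne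
        obtain ⟨h3, h4⟩ := hA3 ξ h1
        have h5 : ‖σ⁻¹ • ((al ξ)⁻¹ • pr ξ - θ)‖ < 1 := by
          by_contra h6
          apply h2
          rw [hβ0 _ (not_lt.1 h6), Complex.ofReal_zero]
        rw [norm_smul, norm_inv, Real.norm_of_nonneg hσ0.le, inv_mul_lt_iff₀ hσ0, mul_one] at h5
        constructor
        · have h6 : θ - η = ((al ξ)⁻¹ • pr ξ - η) - ((al ξ)⁻¹ • pr ξ - θ) := by abel
          rw [h6]
          refine (norm_sub_le _ _).trans ?_
          linarith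
        · have h6 : θ = (al ξ)⁻¹ • pr ξ - ((al ξ)⁻¹ • pr ξ - θ) := by abel
          rw [h6]
          refine (norm_sub_le _ _).trans ?_
          linarith
      rw [h0]
      have h1 : Kt (fun _ : EE (n + 1) => (0 : ℂ)) t x = 0 := by
        unfold Kt MK
        simp
      rw [h1, enorm_zero]
  have h1 : ‖((σ ^ n : ℝ) : ℂ) * Kt (ac a η s) t x‖ₑ ≤
      ENNReal.ofReal (C * σ ^ n) * ∫⁻ θ in Th η s, ENNReal.ofReal ((Wz s z θ ^ N)⁻¹) := by
    rw [hmain]
    refine (enorm_integral_le_lintegral_enorm _).trans ((lintegral_mono hb).trans ?_)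
    rw [lintegral_indicator hTh, lintegral_const_mul' _ _ ENNReal.ofReal_ne_top]
  have hσn : 0 < σ ^ n := pow_pos hσ0 n
  rw [enorm_mul, ← ofReal_norm, Complex.norm_real, Real.norm_of_nonneg hσn.le, mul_comm C,
    ENNReal.ofReal_mul hσn.le, mul_assoc] at h1
  rw [← ht, ← hx]
  exact (ENNReal.mul_le_mul_iff_right (by simpa using hσn) ENNReal.ofReal_ne_top).1 h1

end Pool.Agent.H33.G
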