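import Pool.Agent.H81.GT.TargetsT

/-!
Row REP of the board g_modules: representation of the wave.
-/

set_option autoImplicit false

namespace Pool.Agent.H33.G

open MeasureTheory Set FourierTransform
open scoped ENNReal NNReal RealInnerProductSpace
open Pool.Agent.H83.LS Pool.Agent.H81.GT Pool.Agent.H19.LS
open Pool.Agent.H83.G (Z TF Rg Cls pl Lo Bp TP)

section

variable {n : ℕ}

theorem jo_last (y : EE n) (t : ℝ) : (jo y t) (Fin.last n) = t := by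
  unfold jo
  simp

theorem jo_cast (y : EE n) (t : ℝ) (i : Fin n) : (jo y t) i.castSucc = y i := by
  unfold jo
  simp

theorem pr_cast (x : EE (n + 1)) (i : Fin n) : (pr x) i = x i.castSucc := rfl

theorem jo_pr (x : EE (n + 1)) : jo (pr x) (x (Fin.last n)) = x := by
  ext i
  refine Fin.lastCases ?_ (fun j => ?_) i
  · rw [jo_last]
  · rw [jo_cast, pr_cast]

theorem norm_jo (y : EE n) (t : ℝ) : ‖jo y t‖ ^ 2 = ‖y‖ ^ 2 + t ^ 2 := by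
  rw [EuclideanSpace.norm_sq_eq, EuclideanSpace.norm_sq_eq, Fin.sum_univ_castSucc]
  simp only [jo_last, jo_cast, Real.norm_eq_abs, sq_abs]

theorem inner_jo (y : EE n) (t : ℝ) (ξ : EE (n + 1)) :
    ⟪jo y t, ξ⟫ = ⟪y, pr ξ⟫ + t * ξ (Fin.last n) := by
  simp only [PiLp.inner_apply, RCLike.inner_apply, conj_trivial]
  rw [Fin.sum_univ_castSucc]
  simp only [jo_last, jo_cast, pr_cast]
  ring

theorem fz_contDiff (N : WithTop ℕ∞) : ContDiff ℝ N (fz : Z n → EE (n + 1)) := by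
  rw [contDiff_euclidean]
  intro i
  refine Fin.lastCases ?_ (fun j => ?_) i
  · have h : (fun ζ : Z n => (fz ζ) (Fin.last n)) = fun ζ => (ζ.1 - ζ.2.2) / 2 := by
      funext ζ
      exact jo_last _ _
    rw [h]
    fun_prop
  · have h : (fun ζ : Z n => (fz ζ) j.castSucc) = fun ζ => ζ.2.1 j := by
      funext ζ
      exact jo_cast _ _ _
    rw [h]
    fun_prop

theorem fourier_smooth {A : ℝ} {f : EE n → ℂ} (hf : BCd A f) :
    ContDiff ℝ (⊤ : ℕ∞) (𝓕 f) := by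
  apply Real.contDiff_fourier
  intro k _
  obtain ⟨R, hR⟩ := hf.2.2
  have h1 := BCd_int A f hf
  refine (h1.norm.const_mul ((max R 0) ^ k)).mono' ?_ ?_
  · exact ((measurable_norm.pow_const k).mul hf.1.norm).aestronglyMeasurable
  · refine Filter.Eventually.of_forall fun v => ?_
    rw [Real.norm_of_nonneg (by positivity)]
    by_cases h : R < ‖v‖
    · rw [hR v h, norm_zero, mul_zero, mul_zero]
    · refine mul_le_mul_of_nonneg_right ?_ (norm_nonneg _)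
      exact pow_le_pow_left₀ (norm_nonneg _) ((not_lt.1 h).trans (le_max_left _ _)) k

/-- the support: elementary inequalities -/
theorem supp_num {ρ q d s R κ : ℝ} (hκ : κ ≤ 1 / 8) (hR : 1 ≤ R) (hq : 0 ≤ q)
    (hρ : ρ ^ 2 = q ^ 2 + d ^ 2) (h1 : 1 / 2 ≤ ρ) (h2 : ρ ≤ 2) (h3 : (1 - κ) * ρ ≤ d)
    (h4 : |R * s| ≤ 1 / 1000) :
    (1 - 1 / 4 ≤ ρ + s + d ∧ ρ + s + d ≤ 4 + 1 / 4 ∧ q ≤ (1 + 1 / 4) * (ρ + s + d) ∧
      |(ρ + s - d) - q ^ 2 / (ρ + s + d)| ≤ (1 + 1 / 4) * R⁻¹) ∧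
    (|ρ + s + d| ≤ 5 ∧ q ≤ 5 ∧ |ρ + s - d| ≤ 5) := by
  have hR0 : 0 < R := by linarith
  have hs1 : |s| ≤ 1 / 1000 := by
    rw [abs_mul, abs_of_pos hR0] at h4
    nlinarith [abs_nonneg s]
  have hsR : |s| ≤ 1 / 1000 * R⁻¹ := by
    rw [abs_mul, abs_of_pos hR0] at h4
    rw [← div_eq_mul_inv, le_div_iff₀ hR0]
    linarith
  obtain ⟨hs2, hs3⟩ := abs_le.1 hs1
  have hd1 : 7 / 8 * ρ ≤ d := by nlinarith
  have hd2 : d ≤ ρ := by nlinarith [sq_nonneg q]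
  have hq2 : q ≤ ρ := by nlinarith [sq_nonneg d]
  have ha : 93 / 100 ≤ ρ + s + d := by linarith
  have ha0 : 0 < ρ + s + d := by linarith
  refine ⟨⟨by linarith, by linarith, by linarith, ?_⟩, ?_, by linarith, ?_⟩
  · have e1 : (ρ + s - d) - q ^ 2 / (ρ + s + d) = s * (2 * ρ + s) / (ρ + s + d) := by
      field_simp
      nlinarith
    rw [e1, abs_div, abs_mul, abs_of_pos ha0, div_le_iff₀ ha0]
    have h5 : |2 * ρ + s| ≤ 5 := by
      rw [abs_le]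
      constructor <;> linarith
    have h6 : |s| * |2 * ρ + s| ≤ (1 / 1000 * R⁻¹) * 5 :=
      mul_le_mul hsR h5 (abs_nonneg _) (by positivity)
    have h7 : 0 < R⁻¹ := inv_pos.2 hR0
    nlinarith
  · rw [abs_le]
    constructor <;> linarith
  · rw [abs_le]
    constructor <;> linarith

theorem Gf_supp {κ R : ℝ} {a f : EE (n + 1) → ℂ} {X χ : ℝ → ℂ} (hκ : κ ≤ 1 / 8)
    (ha : SymE n κ a) (hX : IsX X χ) (hR : 1 ≤ R) {ζ : Z n} (h : Gf X R a f ζ ≠ 0) :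
    ζ ∈ Rg n (1 / 4) R⁻¹ ∧ ‖ζ‖ ≤ 5 ∧ 1 / 2 ≤ ‖fz ζ‖ := by
  unfold Gf at h
  obtain ⟨h1, h2⟩ := mul_ne_zero_iff.1 h
  obtain ⟨-, h3⟩ := mul_ne_zero_iff.1 h1
  obtain ⟨h4, -⟩ := mul_ne_zero_iff.1 h3
  obtain ⟨g1, g2, g3⟩ := ha.2 _ h4
  have g4 := hX.2.1 _ h2
  have e1 : (fz ζ) (Fin.last n) = (ζ.1 - ζ.2.2) / 2 := jo_last _ _
  have e2 : ‖fz ζ‖ ^ 2 = ‖ζ.2.1‖ ^ 2 + ((ζ.1 - ζ.2.2) / 2) ^ 2 := norm_jo _ _
  rw [e1] at g3
  obtain ⟨⟨k1, k2, k3, k4⟩, k5, k6, k7⟩ := supp_num (ρ := ‖fz ζ‖) (q := ‖ζ.2.1‖)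
    (d := (ζ.1 - ζ.2.2) / 2) (s := (ζ.1 + ζ.2.2) / 2 - ‖fz ζ‖) hκ hR (norm_nonneg _) e2 g1 g2 g3 g4
  have e3 : ‖fz ζ‖ + ((ζ.1 + ζ.2.2) / 2 - ‖fz ζ‖) + (ζ.1 - ζ.2.2) / 2 = ζ.1 := by ring
  have e4 : ‖fz ζ‖ + ((ζ.1 + ζ.2.2) / 2 - ‖fz ζ‖) - (ζ.1 - ζ.2.2) / 2 = ζ.2.2 := by ring
  rw [e3] at k1 k2 k3 k4 k5
  rw [e4] at k4 k7
  refine ⟨⟨k1, k2, k3, k4⟩, ?_, g1⟩
  rw [Prod.norm_def, Prod.norm_def]
  exact max_le k5 (max_le k6 k7)

theorem Gf_smooth {κ R A : ℝ} {a f : EE (n + 1) → ℂ} {X χ : ℝ → ℂ}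
    (ha : SymE n κ a) (hX : IsX X χ) (hf : BCd A f) :
    ContDiff ℝ (⊤ : ℕ∞) (Gf X R a f : Z n → ℂ) := by
  rw [contDiff_iff_contDiffAt]
  intro ζ
  have hfz : ContDiff ℝ (⊤ : ℕ∞) (fz : Z n → EE (n + 1)) := fz_contDiff _
  by_cases h : ‖fz ζ‖ < 1 / 2
  · have h1 : ∀ᶠ ζ' in nhds ζ, Gf X R a f ζ' = 0 := by
      have h2 : ∀ᶠ ζ' in nhds ζ, ‖fz ζ'‖ < 1 / 2 :=
        (hfz.continuous.norm.tendsto ζ).eventually_lt_const h
      filter_upwards [h2] with ζ' h3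
      have h4 : a (fz ζ') = 0 := by
        by_contra h5
        exact absurd (ha.2 _ h5).1 (not_le.2 h3)
      unfold Gf
      rw [h4, zero_mul, mul_zero, zero_mul]
    exact (contDiffAt_const (c := (0 : ℂ))).congr_of_eventuallyEq h1
  · have hne : fz ζ ≠ 0 := by
      intro h0
      rw [h0, norm_zero] at h
      norm_num at h
    unfold Gf
    have h1 : ContDiffAt ℝ (⊤ : ℕ∞) (fun ζ : Z n => a (fz ζ) * 𝓕 f (fz ζ)) ζ :=
      ((ha.1.comp hfz).mul ((fourier_smooth hf).comp hfz)).contDiffAt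
    have h2 : ContDiffAt ℝ (⊤ : ℕ∞) (fun ζ : Z n => ‖fz ζ‖) ζ :=
      (contDiffAt_norm ℝ hne).comp ζ hfz.contDiffAt
    have h3 : ContDiffAt ℝ (⊤ : ℕ∞) (fun ζ : Z n => R * ((ζ.1 + ζ.2.2) / 2 - ‖fz ζ‖)) ζ := by
      have h4 : ContDiff ℝ (⊤ : ℕ∞) (fun ζ : Z n => (ζ.1 + ζ.2.2) / 2) := by fun_prop
      exact contDiffAt_const.mul (h4.contDiffAt.sub h2)
    have h5 : ContDiffAt ℝ (⊤ : ℕ∞) (fun ζ : Z n => X (R * ((ζ.1 + ζ.2.2) / 2 - ‖fz ζ‖))) ζ :=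
      (hX.1.contDiffAt).comp ζ h3
    exact (contDiffAt_const.mul h1).mul h5

/-- the integral in time -/
theorem int_time {X χ : ℝ → ℂ} (hX : IsX X χ) {R : ℝ} (hR : 1 ≤ R) (t ρ : ℝ) :
    ∫ τ : ℝ, e (t * τ) * X (R * (τ - ρ)) = ((R⁻¹ : ℝ) : ℂ) * (e (t * ρ) * χ (t / R)) := by
  have hR0 : 0 < R := by linarith
  obtain ⟨g, hg⟩ : ∃ g : ℝ → ℂ, g = fun σ => e (t * ρ) * (e (t / R * σ) * X σ) := ⟨_, rfl⟩
  have h1 : ∀ τ, e (t * τ) * X (R * (τ - ρ)) = g (R * (τ - ρ)) := by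
    intro τ
    rw [hg]
    simp only
    rw [← mul_assoc, ← e_add]
    congr 2
    field_simp
    ring
  rw [integral_congr_ae (Filter.Eventually.of_forall h1),
    integral_sub_right_eq_self (fun τ : ℝ => g (R * τ)) ρ, Measure.integral_comp_mul_left,
    hg, integral_const_mul, ← hX.2.2.1, abs_of_pos (inv_pos.2 hR0), Complex.real_smul]

end

theorem pf_REP (hCOV : T_COV) : T_REP := by
  intro n κ R A a f X χ hκ ha hX hR hf
  have hR0 : 0 < R := by linarith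
  have hsm : ContDiff ℝ (⊤ : ℕ∞) (Gf X R a f : Z n → ℂ) := Gf_smooth ha hX hf
  have hcs : HasCompactSupport (Gf X R a f : Z n → ℂ) := by
    refine HasCompactSupport.of_support_subset_isCompact (isCompact_closedBall (0 : Z n) 5) ?_
    intro ζ hζ
    rw [mem_closedBall_zero_iff]
    exact (Gf_supp hκ ha hX hR hζ).2.1
  refine ⟨⟨hsm, hcs⟩, fun ζ hζ => (Gf_supp hκ ha hX hR hζ).1, fun z => ?_⟩
  have hec : Continuous fun ζ : Z n => Pool.Agent.H83.G.e (Pool.Agent.H83.G.ph z ζ) := by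
    have h1 : Continuous fun ζ : Z n => Pool.Agent.H83.G.ph z ζ := by
      unfold Pool.Agent.H83.G.ph
      fun_prop
    exact (continuous_e.comp h1 : Continuous fun ζ : Z n => e (Pool.Agent.H83.G.ph z ζ))
  have hF := (hCOV n).2.2.2.1 (fun ζ => Pool.Agent.H83.G.e (Pool.Agent.H83.G.ph z ζ) *
    Gf X R a f ζ) (hec.mul hsm.continuous)
    ((hec.mul hsm.continuous).integrable_of_hasCompactSupport hcs.mul_left)
  unfold TF
  rw [hF]
  have hin : ∀ ξ : EE (n + 1), ∫ τ : ℝ, Pool.Agent.H83.G.e (Pool.Agent.H83.G.ph z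
      (τ + ξ (Fin.last n), pr ξ, τ - ξ (Fin.last n))) *
        Gf X R a f (τ + ξ (Fin.last n), pr ξ, τ - ξ (Fin.last n)) =
      (e ⟪xz z, ξ⟫ * ((e (tz z * ‖ξ‖) * a ξ) * 𝓕 f ξ)) * (χ (tz z / R) / 2) := by
    intro ξ
    have h1 : ∀ τ : ℝ, Pool.Agent.H83.G.e (Pool.Agent.H83.G.ph z
        (τ + ξ (Fin.last n), pr ξ, τ - ξ (Fin.last n))) *
          Gf X R a f (τ + ξ (Fin.last n), pr ξ, τ - ξ (Fin.last n)) =
        (e ⟪xz z, ξ⟫ * (((R / 2 : ℝ) : ℂ) * (a ξ * 𝓕 f ξ))) *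
          (e (tz z * τ) * X (R * (τ - ‖ξ‖))) := by
      intro τ
      have e1 : (fz (τ + ξ (Fin.last n), pr ξ, τ - ξ (Fin.last n)) : EE (n + 1)) = ξ := by
        unfold fz
        simp only
        rw [show (τ + ξ (Fin.last n) - (τ - ξ (Fin.last n))) / 2 = ξ (Fin.last n) by ring, jo_pr]
      have e2 : Pool.Agent.H83.G.ph z (τ + ξ (Fin.last n), pr ξ, τ - ξ (Fin.last n)) =
          ⟪xz z, ξ⟫ + tz z * τ := by
        unfold Pool.Agent.H83.G.ph xz tz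
        rw [inner_jo]
        simp only
        ring
      have e3 : Pool.Agent.H83.G.e (⟪xz z, ξ⟫ + tz z * τ) = e ⟪xz z, ξ⟫ * e (tz z * τ) :=
        e_add _ _
      unfold Gf
      rw [e1, e2, e3]
      simp only
      rw [show (τ + ξ (Fin.last n) + (τ - ξ (Fin.last n))) / 2 = τ by ring]
      ring
    rw [integral_congr_ae (Filter.Eventually.of_forall h1), integral_const_mul,
      int_time hX hR]
    have hRC : (R : ℂ) ≠ 0 := by exact_mod_cast hR0.ne'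
    push_cast
    field_simp
  rw [integral_congr_ae (Filter.Eventually.of_forall hin), integral_mul_const]
  unfold Ua MM
  ring

end Pool.Agent.H33.G
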