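import Pool.Agent.H83.G.Targets1

/-!
Row SCH of the board g_modules: `TF G` is continuous and decays.
-/

set_option autoImplicit false

namespace Pool.Agent.H33.G

open MeasureTheory Set SchwartzMap
open Pool.Agent.H83.G
open scoped ENNReal NNReal RealInnerProductSpace FourierTransform

theorem schwartz_decay {V : Type*} [NormedAddCommGroup V] [NormedSpace ℝ V] (f : 𝓢(V, ℂ))
    (N : ℕ) : ∃ C : ℝ, 0 ≤ C ∧ ∀ x, ‖f x‖ ≤ C * ((1 + ‖x‖) ^ N)⁻¹ := by
  have key : ∀ x, (1 + ‖x‖) ^ N * ‖f x‖ ≤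
      2 ^ N * (Finset.Iic ((N, 0) : ℕ × ℕ)).sup (fun m => SchwartzMap.seminorm ℝ m.1 m.2) f := by
    intro x
    have h := one_add_le_sup_seminorm_apply (𝕜 := ℝ) (m := (N, 0)) (k := N) (n := 0) le_rfl le_rfl
      f x
    rwa [norm_iteratedFDeriv_zero] at h
  refine ⟨_, le_trans (by positivity) (key 0), fun x => ?_⟩
  rw [← div_eq_mul_inv, le_div_iff₀ (by positivity), mul_comm]
  exact key x

theorem pf_SCH (hTRZ : T_TRZ) : T_SCH := by
  intro m G hG
  obtain ⟨Φ, hΦ, hph⟩ := hTRZ m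
  have hc : HasCompactSupport (fun ξ => G (Φ ξ)) := hG.2.comp_homeomorph Φ.toHomeomorph
  have hs : ContDiff ℝ (⊤ : ℕ∞) (fun ξ => G (Φ ξ)) := hG.1.comp Φ.contDiff
  obtain ⟨f, hf⟩ : ∃ f : 𝓢(EuclideanSpace ℝ (Fin (m + 2)), ℂ), f = 𝓕⁻ (hc.toSchwartzMap hs) :=
    ⟨_, rfl⟩
  have h1 : ∀ x, TF G (Φ x) = f x := by
    intro x
    rw [hf, SchwartzMap.fourierInv_coe, Real.fourierInv_eq']
    unfold TF
    rw [← hΦ.integral_comp Φ.toHomeomorph.measurableEmbedding]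
    refine integral_congr_ae (Filter.Eventually.of_forall fun ξ => ?_)
    simp only [smul_eq_mul]
    have h2 : ph (Φ x) (Φ ξ) = ⟪ξ, x⟫ := by rw [hph, real_inner_comm]
    rw [h2]
    rfl
  have h3 : ∀ z, TF G z = f (Φ.symm z) := by
    intro z
    rw [← h1, Φ.apply_symm_apply]
  refine ⟨?_, fun N => ?_⟩
  · have h4 : TF G = fun z => f (Φ.symm z) := funext h3
    rw [h4]
    exact f.continuous.comp Φ.symm.continuous
  · obtain ⟨C, hC0, hC⟩ := schwartz_decay f N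
    obtain ⟨M, hM⟩ : ∃ M : ℝ, M = max 1 ‖(Φ : EuclideanSpace ℝ (Fin (m + 2)) →L[ℝ] Z m)‖ :=
      ⟨_, rfl⟩
    have hM1 : 1 ≤ M := by
      rw [hM]
      exact le_max_left _ _
    refine ⟨(C + 1) * M ^ N, by positivity, fun z => ?_⟩
    rw [h3]
    refine (hC _).trans ?_
    unfold wt
    rw [mul_assoc]
    refine mul_le_mul (by linarith) ?_ (by positivity) (by linarith)
    have h4 : ‖z‖ ≤ M * ‖Φ.symm z‖ := by
      have h5 := (Φ : EuclideanSpace ℝ (Fin (m + 2)) →L[ℝ] Z m).le_opNorm (Φ.symm z)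
      have h6 : (Φ : EuclideanSpace ℝ (Fin (m + 2)) →L[ℝ] Z m) (Φ.symm z) = z :=
        Φ.apply_symm_apply z
      rw [h6] at h5
      refine h5.trans (mul_le_mul_of_nonneg_right ?_ (norm_nonneg _))
      rw [hM]
      exact le_max_right _ _
    have h7 : 0 < 1 + ‖z‖ := by linarith [norm_nonneg z]
    have h8 : 0 < 1 + ‖Φ.symm z‖ := by linarith [norm_nonneg (Φ.symm z)]
    rw [← div_eq_mul_inv, inv_le_comm₀ (pow_pos h8 N) (div_pos (pow_pos (by linarith) N)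
      (pow_pos h7 N)), inv_div, div_le_iff₀ (pow_pos (by linarith) N), ← mul_pow]
    refine pow_le_pow_left₀ h7.le ?_ N
    nlinarith [norm_nonneg (Φ.symm z)]

end Pool.Agent.H33.G
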