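import Pool.Agent.H33.G.TE2

/-!
Row TE1 of the board g_modules: refined decoupling in the two-ends case, one family.
-/

set_option autoImplicit false

namespace Pool.Agent.H33.G

open MeasureTheory Set
open Pool.Agent.H83.G
open scoped ENNReal NNReal RealInnerProductSpace

theorem Rg_mono {m : ℕ} {κ κ' c : ℝ} (h : κ ≤ κ') (hκ : κ ≤ 1) (hc : 0 ≤ c) {ζ : Z m}
    (hζ : ζ ∈ Rg m κ c) : ζ ∈ Rg m κ' c := by
  obtain ⟨h1, h2, h3, h4⟩ := hζ
  refine ⟨by linarith, by linarith, h3.trans ?_, h4.trans ?_⟩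
  · exact mul_le_mul_of_nonneg_right (by linarith) (by linarith)
  · exact mul_le_mul_of_nonneg_right (by linarith) hc

theorem wt_nonneg {m : ℕ} (N : ℕ) (z : Z m) : 0 ≤ wt N z := by
  unfold wt
  have := norm_nonneg z
  positivity

/-- the elementary part: exponents -/
theorem te1_num {X H P θ n CB CR CP B M M' a S R δ ε₀ : ℝ} (hn : 6 ≤ n) (hR : 1 ≤ R) (hδ : 0 < δ)
    (hε : 0 < ε₀) (hθ0 : 0 < θ) (hθδ : θ ≤ δ) (hδ1 : δ ≤ 1 / 100) (hθP : 0 ≤ P / 2 - 1)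
    (hH : 0 < H) (hX : 0 ≤ X) (hCB : 0 < CB) (hCR : 0 < CR) (hCP : 0 < CP) (hB : 1 ≤ B)
    (hM' : 1 ≤ M') (hMM : M' ≤ M) (hMB : M' ≤ B * R ^ (2 * n)) (ha : 0 < a) (hS : 0 ≤ S)
    (h1 : X * H ^ P ≤ CB * R ^ (n * ε₀) * (CR * R ^ (100 * n * δ) * (3 * M') ^ (P / 2 - 1) *
      (2 * a) ^ P * S * R ^ (n / 2)))
    (h2 : H ≤ CP * R ^ (δ * n / 2) * (2 * a) * (3 * M')) :
    X * H ^ (P + θ) ≤ (CB * CR * 3 ^ (P / 2 - 1) * 2 ^ P * (6 * CP) ^ θ * B ^ (θ / 2)) *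
      R ^ (4 * (100 * n) * (δ + ε₀)) * M ^ (P / 2 - 1 + θ / 2) * a ^ (P + θ) * S * R ^ (n / 2) := by
  have hR0 : 0 < R := by linarith
  have hM'0 : 0 < M' := by linarith
  have hM0 : 0 < M := by linarith
  have hB0 : 0 < B := by linarith
  have e1 : CP * R ^ (δ * n / 2) * (2 * a) * (3 * M') = 6 * CP * R ^ (δ * n / 2) * a * M' := by
    ring
  rw [e1] at h2
  have h3 : H ^ θ ≤ (6 * CP) ^ θ * R ^ (δ * n / 2 * θ) * a ^ θ * M' ^ θ := by
    refine (Real.rpow_le_rpow hH.le h2 hθ0.le).trans (le_of_eq ?_)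
    rw [Real.mul_rpow (by positivity) hM'0.le, Real.mul_rpow (by positivity) ha.le,
      Real.mul_rpow (by positivity) (by positivity), ← Real.rpow_mul hR0.le]
  have h4 : M' ^ (P / 2 - 1) * M' ^ θ ≤ M ^ (P / 2 - 1 + θ / 2) * (B ^ (θ / 2) * R ^ (n * θ)) := by
    have e2 : M' ^ (P / 2 - 1) * M' ^ θ = M' ^ (P / 2 - 1 + θ / 2) * M' ^ (θ / 2) := by
      rw [← Real.rpow_add hM'0, ← Real.rpow_add hM'0]
      congr 1
      ring
    rw [e2]
    refine mul_le_mul (Real.rpow_le_rpow hM'0.le hMM (by linarith)) ?_ (by positivity)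
      (by positivity)
    refine (Real.rpow_le_rpow hM'0.le hMB (by linarith)).trans (le_of_eq ?_)
    rw [Real.mul_rpow hB0.le (by positivity), ← Real.rpow_mul hR0.le]
    congr 2
    ring
  have h5 : R ^ (n * ε₀) * R ^ (100 * n * δ) * R ^ (δ * n / 2 * θ) * R ^ (n * θ) ≤
      R ^ (4 * (100 * n) * (δ + ε₀)) := by
    rw [← Real.rpow_add hR0, ← Real.rpow_add hR0, ← Real.rpow_add hR0]
    refine Real.rpow_le_rpow_of_exponent_le hR ?_
    have g1 : n * θ ≤ n * δ := mul_le_mul_of_nonneg_left hθδ (by linarith)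
    have g2 : δ * n / 2 * θ ≤ δ * n := by nlinarith [mul_pos hδ (by linarith : (0 : ℝ) < n)]
    have g3 : 0 < n * ε₀ := mul_pos (by linarith) hε
    have g4 : 0 < n * δ := mul_pos (by linarith) hδ
    nlinarith
  calc X * H ^ (P + θ) = (X * H ^ P) * H ^ θ := by
        rw [Real.rpow_add hH]
        ring
    _ ≤ (CB * R ^ (n * ε₀) * (CR * R ^ (100 * n * δ) * (3 * M') ^ (P / 2 - 1) *
        (2 * a) ^ P * S * R ^ (n / 2))) * ((6 * CP) ^ θ * R ^ (δ * n / 2 * θ) * a ^ θ *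
          M' ^ θ) := mul_le_mul h1 h3 (by positivity) (by positivity)
    _ = (CB * CR * 3 ^ (P / 2 - 1) * 2 ^ P * (6 * CP) ^ θ * (a ^ P * a ^ θ) * S * R ^ (n / 2)) *
        (R ^ (n * ε₀) * R ^ (100 * n * δ) * R ^ (δ * n / 2 * θ)) *
          (M' ^ (P / 2 - 1) * M' ^ θ) := by
        rw [Real.mul_rpow (by norm_num : (0 : ℝ) ≤ 3) hM'0.le,
          Real.mul_rpow (by norm_num : (0 : ℝ) ≤ 2) ha.le]
        ring
    _ ≤ (CB * CR * 3 ^ (P / 2 - 1) * 2 ^ P * (6 * CP) ^ θ * (a ^ P * a ^ θ) * S * R ^ (n / 2)) *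
        (R ^ (n * ε₀) * R ^ (100 * n * δ) * R ^ (δ * n / 2 * θ)) *
          (M ^ (P / 2 - 1 + θ / 2) * (B ^ (θ / 2) * R ^ (n * θ))) :=
        mul_le_mul_of_nonneg_left h4 (by positivity)
    _ = (CB * CR * 3 ^ (P / 2 - 1) * 2 ^ P * (6 * CP) ^ θ * B ^ (θ / 2) *
        M ^ (P / 2 - 1 + θ / 2) * a ^ (P + θ) * S * R ^ (n / 2)) *
        (R ^ (n * ε₀) * R ^ (100 * n * δ) * R ^ (δ * n / 2 * θ) * R ^ (n * θ)) := by
        rw [Real.rpow_add ha]
        ring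
    _ ≤ (CB * CR * 3 ^ (P / 2 - 1) * 2 ^ P * (6 * CP) ^ θ * B ^ (θ / 2) *
        M ^ (P / 2 - 1 + θ / 2) * a ^ (P + θ) * S * R ^ (n / 2)) *
        R ^ (4 * (100 * n) * (δ + ε₀)) := mul_le_mul_of_nonneg_left h5 (by positivity)
    _ = _ := by ring

theorem pf_TE1 (hRDP : T_RDP) (hMSB : T_MSB) (hPTW : T_PTW) (hCBN : T_CBN) : T_TE1 := by
  intro m L β Ψ ψ δ ε₀ B hm hβ hψ hδ hδ1 hε hε1 hB
  have hm4 : (4 : ℝ) ≤ m := by exact_mod_cast hm
  have hm0 : (0 : ℝ) < m := by linarith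
  obtain ⟨θ, hθ⟩ : ∃ θ, θ = min δ (2 / (m : ℝ)) := ⟨_, rfl⟩
  have hθ0 : 0 < θ := by
    rw [hθ]
    exact lt_min hδ (by positivity)
  have hθδ : θ ≤ δ := by
    rw [hθ]
    exact min_le_left _ _
  have hθm : θ ≤ 2 / (m : ℝ) := by
    rw [hθ]
    exact min_le_right _ _
  obtain ⟨P, hP⟩ : ∃ P, P = 2 * ((m : ℝ) + 2) / m - θ := ⟨_, rfl⟩
  have hP' : P = 2 + 4 / m - θ := by
    rw [hP]
    field_simp
    ring
  have h4m : 4 / (m : ℝ) = 2 * (2 / m) := by ring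
  have h2m : 0 < 2 / (m : ℝ) := by positivity
  have hP2 : 2 ≤ P := by
    rw [hP', h4m]
    linarith
  have hPm : m * (P - 2) < 4 := by
    have : m * (P - 2) = 4 - m * θ := by
      rw [hP']
      field_simp
      ring
    rw [this]
    have := mul_pos hm0 hθ0
    linarith
  have hPe : P / 2 - 1 + θ / 2 = 2 / (m : ℝ) := by
    rw [hP']
    ring
  obtain ⟨NM, hNM⟩ := hMSB m δ hδ
  refine ⟨max NM (m + 3), ?_⟩
  intro N hN
  obtain ⟨CM, hCM1, hCM⟩ := hNM N (le_trans (le_max_left _ _) hN)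
  obtain ⟨CR, hCR1, hCR⟩ := hRDP m N β Ψ ψ δ P (by omega) hβ hψ hδ (by linarith)
    (le_trans (le_max_right _ _) hN) hP2 hPm
  obtain ⟨CP, hCP0, hCP⟩ := hPTW m N N β Ψ ψ δ hβ hψ hδ.le
  obtain ⟨-, -, CB, hCB1, -, hCB⟩ := hCBN m
  obtain ⟨C₁, hC₁⟩ : ∃ C₁, C₁ = CB * CR * 3 ^ (P / 2 - 1) * 2 ^ P * (6 * CP) ^ θ * B ^ (θ / 2) :=
    ⟨_, rfl⟩
  have hB0 : 0 < B := by linarith
  have hCB0 : 0 < CB := by linarith
  have hCR0 : 0 < CR := by linarith
  have hC₁0 : 0 < C₁ := by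
    rw [hC₁]
    positivity
  refine ⟨C₁ + CR + CM, by linarith, ?_⟩
  intro κ R A H a M₁ G z₀ S QQ l k X hκ hκ1 hR hCRδ hA hH ha hM₁ hCls hSep hXR hS hcS hXQ hQQ hcnt hX
  classical
  have hR0 : 0 < R := by linarith
  obtain ⟨r, hr⟩ : ∃ r, r = R ^ (1 - ε₀) := ⟨_, rfl⟩
  rw [← hr] at hcnt hX
  have hr0 : 0 < r := by
    rw [hr]
    exact Real.rpow_pos_of_pos hR0 _
  have hrR : r ≤ R := by
    rw [hr]
    conv_rhs => rw [← Real.rpow_one R]
    exact Real.rpow_le_rpow_of_exponent_le hR (by linarith)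
  have hRr : R / r = R ^ ε₀ := by
    rw [hr, div_eq_iff (Real.rpow_pos_of_pos hR0 _).ne', ← Real.rpow_add hR0]
    conv_lhs => rw [← Real.rpow_one R]
    congr 1
    ring
  rcases X.eq_empty_or_nonempty with rfl | ⟨z₁, hz₁⟩
  · rw [Finset.card_empty, Nat.cast_zero, zero_mul]
    have : 0 < M₁ := by linarith
    positivity
  -- `S` is not empty
  have hSne : 1 ≤ (S.card : ℝ) := by
    have h1 : 0 < S.card := by
      rw [Finset.card_pos]
      by_contra hcon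
      rw [Finset.not_nonempty_iff_eq_empty] at hcon
      have h2 := hX z₁ hz₁
      have h3 : SB QQ R r δ l k S (bl R r (cb (Real.sqrt R) z₁)) = ∅ := by
        rw [← Finset.subset_empty, ← hcon]
        exact SB_subset
      rw [h3, Finset.sum_empty, norm_zero] at h2
      linarith
    exact_mod_cast h1
  obtain ⟨M', hM'⟩ : ∃ M', M' = min M₁ (S.card : ℝ) := ⟨_, rfl⟩
  have hM'1 : 1 ≤ M' := by
    rw [hM']
    exact le_min hM₁ hSne
  have hM'M : M' ≤ M₁ := by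
    rw [hM']
    exact min_le_left _ _
  have hM'S : M' ≤ S.card := by
    rw [hM']
    exact min_le_right _ _
  have hRg : ∀ ζ, G ζ ≠ 0 → ζ ∈ Rg m (1 / 2) R⁻¹ := fun ζ hζ =>
    Rg_mono (by linarith) (by linarith) (inv_nonneg.2 hR0.le) (hCls.2.1 ζ hζ)
  -- multiplicities
  have hMS : ∀ z ∈ X, MS N R δ (SB QQ R r δ l k S (bl R r (cb (Real.sqrt R) z))) z ≤ 3 * M' := by
    intro z hz
    have h1 := hCM R (SB QQ R r δ l k S (bl R r (cb (Real.sqrt R) z))) z hR (by linarith)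
      fun W hW => (hS W (SB_subset hW)).1
    have h2 := hcnt z hz
    have h3 : (((SB QQ R r δ l k S (bl R r (cb (Real.sqrt R) z))).filter
        (fun W => near R δ W z)).card : ℝ) ≤ S.card := by
      exact_mod_cast Finset.card_le_card ((Finset.filter_subset _ _).trans SB_subset)
    have h4 : (((SB QQ R r δ l k S (bl R r (cb (Real.sqrt R) z))).filter
        (fun W => near R δ W z)).card : ℝ) ≤ 2 * M' := by
      rcases le_total M₁ (S.card : ℝ) with h | h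
      · rw [hM', min_eq_left h]
        exact h2
      · rw [hM', min_eq_right h]
        linarith
    linarith
  -- the balls
  obtain ⟨f, hf⟩ : ∃ f : Z m → Zi m, f = fun z => bl R r (cb (Real.sqrt R) z) := ⟨_, rfl⟩
  have hfz : ∀ z, f z = bl R r (cb (Real.sqrt R) z) := fun z => by rw [hf]
  have hball : ∀ b ∈ X.image f, ((X.filter (fun z => f z = b)).card : ℝ) * H ^ P ≤
      CR * R ^ (lo m * δ) * (3 * M') ^ (P / 2 - 1) * (2 * a) ^ P * S.card *
        R ^ (((m : ℝ) + 2) / 2) := by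
    intro b _
    have h1 := hCR κ R (2 * a) H (3 * M') G (SB QQ R r δ l k S b) (X.filter (fun z => f z = b))
      hκ hκ1 hR (by linarith) hCls.1 hCls.2.1 (by linarith) hH (by linarith)
      (fun z hz z' hz' hne => hSep z (Finset.mem_filter.1 hz).1 z' (Finset.mem_filter.1 hz').1 hne)
      (fun W hW => hS W (SB_subset hW)) (fun z hz => by
        obtain ⟨g1, g2⟩ := Finset.mem_filter.1 hz
        rw [hfz] at g2
        rw [← g2]
        exact ⟨hX z g1, hMS z g1⟩)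
    refine h1.trans ?_
    refine mul_le_mul_of_nonneg_right (mul_le_mul_of_nonneg_left ?_ ?_) ?_
    · exact_mod_cast Finset.card_le_card SB_subset
    · have : 0 < M' := by linarith
      positivity
    · exact Real.rpow_nonneg hR0.le _
  have hnum : ((X.image f).card : ℝ) ≤ CB * R ^ (((m : ℝ) + 2) * ε₀) := by
    have h1 : X.image f ⊆ QQ.image (bl R r) := by
      intro b hb
      obtain ⟨z, hz, rfl⟩ := Finset.mem_image.1 hb
      rw [hfz]
      exact Finset.mem_image_of_mem _ (hXQ z hz)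
    have h2 := hCB R r z₀ QQ hr0 hrR hR hQQ
    have h3 : ((X.image f).card : ℝ) ≤ ((QQ.image (bl R r)).card : ℝ) := by
      exact_mod_cast Finset.card_le_card h1
    refine h3.trans (h2.trans (le_of_eq ?_))
    rw [hRr, ← Real.rpow_natCast, ← Real.rpow_mul hR0.le]
    congr 2
    push_cast
    ring
  have hsum : (X.card : ℝ) * H ^ P ≤ CB * R ^ (((m : ℝ) + 2) * ε₀) *
      (CR * R ^ (100 * ((m : ℝ) + 2) * δ) * (3 * M') ^ (P / 2 - 1) * (2 * a) ^ P * S.card *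
        R ^ (((m : ℝ) + 2) / 2)) := by
    have h1 : (X.card : ℝ) = ∑ b ∈ X.image f, ((X.filter (fun z => f z = b)).card : ℝ) := by
      exact_mod_cast Finset.card_eq_sum_card_image f X
    rw [h1, Finset.sum_mul]
    refine (Finset.sum_le_sum hball).trans ?_
    rw [Finset.sum_const, nsmul_eq_mul]
    have hM'0 : 0 < M' := by linarith
    have e1 : lo m = 100 * ((m : ℝ) + 2) := rfl
    rw [e1]
    exact mul_le_mul_of_nonneg_right hnum (by positivity)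
  -- bound of `H`
  have hHle : H ≤ CP * R ^ (δ * ((m : ℝ) + 2) / 2) * (2 * a) * (3 * M') := by
    refine (hX z₁ hz₁).trans ((norm_sum_le _ _).trans ?_)
    have h1 := hMS z₁ hz₁
    unfold MS at h1
    have h2 : 0 ≤ CP * R ^ (δ * ((m : ℝ) + 2) / 2) := by positivity
    refine le_trans ?_ (mul_le_mul_of_nonneg_left h1 (by positivity))
    rw [Finset.mul_sum]
    refine Finset.sum_le_sum fun W hW => ?_
    refine (hCP R G W z₁ hR hCls.1 hRg).trans ?_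
    refine mul_le_mul_of_nonneg_right ?_ (wt_nonneg _ _)
    exact mul_le_mul_of_nonneg_left (hS W (SB_subset hW)).2 h2
  have hfin := te1_num (X := (X.card : ℝ)) (H := H) (P := P) (θ := θ) (n := (m : ℝ) + 2)
    (CB := CB) (CR := CR) (CP := CP) (B := B) (M := M₁) (M' := M') (a := a) (S := (S.card : ℝ))
    (R := R) (δ := δ) (ε₀ := ε₀) (by linarith) hR hδ hε hθ0 hθδ hδ1 (by linarith) hH
    (Nat.cast_nonneg _) hCB0 hCR0 hCP0 hB hM'1 hM'M (hM'S.trans hcS) ha (Nat.cast_nonneg _)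
    hsum hHle
  have e2 : P + θ = 2 * ((m : ℝ) + 2) / m := by
    rw [hP]
    ring
  rw [hPe, e2, ← hC₁] at hfin
  refine hfin.trans ?_
  have e1 : lo m = 100 * ((m : ℝ) + 2) := rfl
  rw [e1]
  have hM₁0 : 0 < M₁ := by linarith
  have h9 : 0 ≤ R ^ (4 * (100 * ((m : ℝ) + 2)) * (δ + ε₀)) * M₁ ^ (2 / (m : ℝ)) *
      a ^ (2 * ((m : ℝ) + 2) / m) * S.card * R ^ (((m : ℝ) + 2) / 2) := by positivity
  have h10 := mul_le_mul_of_nonneg_right (show C₁ ≤ C₁ + CR + CM by linarith) h9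
  calc _ = C₁ * (R ^ (4 * (100 * ((m : ℝ) + 2)) * (δ + ε₀)) * M₁ ^ (2 / (m : ℝ)) *
      a ^ (2 * ((m : ℝ) + 2) / m) * S.card * R ^ (((m : ℝ) + 2) / 2)) := by ring
    _ ≤ _ := h10
    _ = _ := by ring

end Pool.Agent.H33.G
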