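import Pool.Agent.H83.G.Targets5

/-!
Row TE2 of the board g_modules: local energy in the two-ends case, one family.
-/

set_option autoImplicit false

namespace Pool.Agent.H33.G

open MeasureTheory Set
open Pool.Agent.H83.G
open scoped ENNReal NNReal RealInnerProductSpace

theorem mem_SB {m : ℕ} {QQ : Finset (Zi m)} {R r δ : ℝ} {l k : ℕ} {S : Finset (Pk m)} {B : Zi m}
    {W : Pk m} : W ∈ SB QQ R r δ l k S B ↔ W ∈ S ∧ Sh QQ R r δ l k (tb R W) B := by
  classical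
  unfold SB
  exact Finset.mem_filter

theorem SB_subset {m : ℕ} {QQ : Finset (Zi m)} {R r δ : ℝ} {l k : ℕ} {S : Finset (Pk m)}
    {B : Zi m} : SB QQ R r δ l k S B ⊆ S := fun _ h => (mem_SB.1 h).1

open scoped Classical in
/-- counting the planks by tubes -/
theorem card_tubes {m : ℕ} {R : ℝ} {b M : ℝ} (hb : 0 ≤ b) (S S' : Finset (Pk m))
    (P : Pk m → Prop) [DecidablePred P] (h1 : ∀ W ∈ S', W ∈ S ∧ P (tb R W))
    (h2 : ∀ W ∈ S, ((S.filter (fun W' => tb R W' = tb R W)).card : ℝ) ≤ 2 * b)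
    (h3 : (((S.image (tb R)).filter P).card : ℝ) ≤ 2 * M) :
    (S'.card : ℝ) ≤ 4 * (M * b) := by
  have h4 : ∀ W ∈ S', tb R W ∈ (S.image (tb R)).filter P := by
    intro W hW
    exact Finset.mem_filter.2 ⟨Finset.mem_image_of_mem _ (h1 W hW).1, (h1 W hW).2⟩
  have h5 := Finset.card_eq_sum_card_fiberwise h4
  have h6 : (S'.card : ℝ) = ∑ T ∈ (S.image (tb R)).filter P,
      ((S'.filter (fun W => tb R W = T)).card : ℝ) := by exact_mod_cast h5
  rw [h6]
  calc _ ≤ ∑ T ∈ (S.image (tb R)).filter P, (2 * b : ℝ) := by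
        refine Finset.sum_le_sum fun T hT => ?_
        obtain ⟨hT1, -⟩ := Finset.mem_filter.1 hT
        obtain ⟨W, hW, rfl⟩ := Finset.mem_image.1 hT1
        refine le_trans ?_ (h2 W hW)
        have : (S'.filter (fun W' => tb R W' = tb R W)) ⊆
            S.filter (fun W' => tb R W' = tb R W) :=
          fun W' hW' => Finset.mem_filter.2 ⟨(h1 W' (Finset.mem_filter.1 hW').1).1,
            (Finset.mem_filter.1 hW').2⟩
        exact_mod_cast Finset.card_le_card this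
    _ = (((S.image (tb R)).filter P).card : ℝ) * (2 * b) := by
        rw [Finset.sum_const, nsmul_eq_mul]
    _ ≤ (2 * M) * (2 * b) := mul_le_mul_of_nonneg_right h3 (by positivity)
    _ = 4 * (M * b) := by ring

theorem pf_TE2 (hL2Q : T_L2Q) : T_TE2 := by
  intro m L β Ψ ψ δ b₀ B hm hβ hψ hδ hδ1 hb₀ hB N hN
  obtain ⟨C₀, hC₀, hC⟩ := hL2Q m L N β Ψ ψ δ (2 * ((m : ℝ) + 2) + 3) hβ hψ hδ (by linarith) hN
  obtain ⟨D, hD⟩ : ∃ D, D = C₀ * B * (b₀⁻¹) ^ 2 := ⟨_, rfl⟩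
  have hC0 : 0 < C₀ := by linarith
  have hB0 : 0 < B := by linarith
  have hD0 : 0 < D := by
    rw [hD]
    positivity
  refine ⟨32 * C₀ + 2 * D, by linarith, ?_⟩
  intro κ R r A H a b M G S QQ l k X hκ hκ1 hR hCR hA hH hbA ha hb hM hCls hSep hS hcS hb2 hM2 hX
  classical
  have hR0 : 0 < R := by linarith
  have hRδ : 0 < R ^ δ := Real.rpow_pos_of_pos hR0 _
  -- the error term
  have herr : C₀ * A ^ 2 * (B * R ^ (2 * ((m : ℝ) + 2))) * R ^ (-(2 * ((m : ℝ) + 2) + 3)) ≤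
      1 / 2 * H ^ 2 := by
    have h1 : A ≤ b₀⁻¹ * (R ^ δ * H) := by
      rw [inv_mul_eq_div, le_div_iff₀ hb₀]
      linarith
    have h2 : A ^ 2 ≤ (b₀⁻¹ * (R ^ δ * H)) ^ 2 := pow_le_pow_left₀ hA.le h1 2
    have h3 : R ^ (2 * ((m : ℝ) + 2)) * R ^ (-(2 * ((m : ℝ) + 2) + 3)) = R ^ (-3 : ℝ) := by
      rw [← Real.rpow_add hR0]
      congr 1
      ring
    have h4 : (R ^ δ) ^ 2 * R ^ (-3 : ℝ) ≤ R ^ (-δ) := by
      rw [← Real.rpow_natCast, ← Real.rpow_mul hR0.le, ← Real.rpow_add hR0]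
      refine Real.rpow_le_rpow_of_exponent_le hR ?_
      push_cast
      linarith
    have h5 : D * R ^ (-δ) ≤ 1 / 2 := by
      rw [Real.rpow_neg hR0.le, ← div_eq_mul_inv, div_le_iff₀ hRδ]
      linarith
    calc C₀ * A ^ 2 * (B * R ^ (2 * ((m : ℝ) + 2))) * R ^ (-(2 * ((m : ℝ) + 2) + 3))
        = C₀ * B * A ^ 2 * (R ^ (2 * ((m : ℝ) + 2)) * R ^ (-(2 * ((m : ℝ) + 2) + 3))) := by ring
      _ = C₀ * B * A ^ 2 * R ^ (-3 : ℝ) := by rw [h3]
      _ ≤ C₀ * B * (b₀⁻¹ * (R ^ δ * H)) ^ 2 * R ^ (-3 : ℝ) := by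
          refine mul_le_mul_of_nonneg_right (mul_le_mul_of_nonneg_left h2 (by positivity)) ?_
          exact Real.rpow_nonneg hR0.le _
      _ = D * ((R ^ δ) ^ 2 * R ^ (-3 : ℝ)) * H ^ 2 := by
          rw [hD]
          ring
      _ ≤ D * R ^ (-δ) * H ^ 2 :=
          mul_le_mul_of_nonneg_right (mul_le_mul_of_nonneg_left h4 hD0.le) (by positivity)
      _ ≤ 1 / 2 * H ^ 2 := mul_le_mul_of_nonneg_right h5 (by positivity)
  -- one cube
  have key : ∀ q ∈ X.image (cb (Real.sqrt R)),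
      ((X.filter (fun z => cb (Real.sqrt R) z = q)).card : ℝ) * H ^ 2 ≤
        32 * C₀ * R ^ (lo m * δ) * M * b * a ^ 2 * R ^ (((m : ℝ) + 1) / 2) := by
    intro q hq
    obtain ⟨z₁, hz₁, hz₁q⟩ := Finset.mem_image.1 hq
    obtain ⟨S₁, hS₁⟩ : ∃ S₁, S₁ = SB QQ R r δ l k S (bl R r q) := ⟨_, rfl⟩
    obtain ⟨S', hS'⟩ : ∃ S', S' = S₁.filter (fun W => Inc R δ (tb R W) q) := ⟨_, rfl⟩
    obtain ⟨Xq, hXq⟩ : ∃ Xq, Xq = X.filter (fun z => cb (Real.sqrt R) z = q) := ⟨_, rfl⟩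
    rw [← hXq]
    have h1 := hC κ R A (2 * a) G S₁ S' q Xq hκ hκ1 hR (by linarith) hA (by linarith) hCls
      (fun z hz z' hz' hne => hSep z (by rw [hXq] at hz; exact (Finset.mem_filter.1 hz).1) z'
        (by rw [hXq] at hz'; exact (Finset.mem_filter.1 hz').1) hne)
      (fun z hz => by rw [hXq] at hz; exact (Finset.mem_filter.1 hz).2)
      (fun W hW => hS W (SB_subset (by rw [← hS₁]; exact hW)))
      (by rw [hS']; exact Finset.filter_subset _ _)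
      (fun W hW hI => by rw [hS']; exact Finset.mem_filter.2 ⟨hW, hI⟩)
    have h2 : (Xq.card : ℝ) * H ^ 2 ≤ ∑ z ∈ Xq, ‖∑ W ∈ S₁, Fp β ψ R δ G W z‖ ^ 2 := by
      rw [← nsmul_eq_mul, ← Finset.sum_const]
      refine Finset.sum_le_sum fun z hz => ?_
      rw [hXq] at hz
      obtain ⟨g1, g2⟩ := Finset.mem_filter.1 hz
      have g3 := hX z g1
      rw [g2, ← hS₁] at g3
      exact pow_le_pow_left₀ hH.le g3 2
    have h3 : (S₁.card : ℝ) ≤ B * R ^ (2 * ((m : ℝ) + 2)) := by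
      refine le_trans ?_ hcS
      rw [hS₁]
      exact_mod_cast Finset.card_le_card SB_subset
    have h4 : (S'.card : ℝ) ≤ 4 * (M * b) := by
      refine card_tubes (R := R) (by linarith) S S'
        (fun T => Inc R δ T q ∧ Sh QQ R r δ l k T (bl R r q)) ?_ hb2 ?_
      · intro W hW
        rw [hS'] at hW
        obtain ⟨g1, g2⟩ := Finset.mem_filter.1 hW
        rw [hS₁] at g1
        exact ⟨(mem_SB.1 g1).1, g2, (mem_SB.1 g1).2⟩
      · have := hM2 z₁ hz₁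
        rwa [hz₁q] at this
    have h5 : 1 ≤ (Xq.card : ℝ) := by
      have : 0 < Xq.card := by
        rw [Finset.card_pos, hXq]
        exact ⟨z₁, Finset.mem_filter.2 ⟨hz₁, hz₁q⟩⟩
      exact_mod_cast this
    have h6 : C₀ * A ^ 2 * S₁.card * R ^ (-(2 * ((m : ℝ) + 2) + 3)) ≤ 1 / 2 * H ^ 2 := by
      refine le_trans ?_ herr
      refine mul_le_mul_of_nonneg_right (mul_le_mul_of_nonneg_left h3 (by positivity)) ?_
      exact Real.rpow_nonneg hR0.le _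
    have h7 : 0 ≤ R ^ (lo m * δ) := Real.rpow_nonneg hR0.le _
    have h8 : 0 ≤ R ^ (((m : ℝ) + 1) / 2) := Real.rpow_nonneg hR0.le _
    have h9 : C₀ * R ^ (lo m * δ) * (2 * a) ^ 2 * S'.card * R ^ (((m : ℝ) + 1) / 2) ≤
        C₀ * R ^ (lo m * δ) * (2 * a) ^ 2 * (4 * (M * b)) * R ^ (((m : ℝ) + 1) / 2) :=
      mul_le_mul_of_nonneg_right (mul_le_mul_of_nonneg_left h4 (by positivity)) h8
    have h10 : 1 * (1 / 2 * H ^ 2) ≤ (Xq.card : ℝ) * (1 / 2 * H ^ 2) :=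
      mul_le_mul_of_nonneg_right h5 (by positivity)
    have h11 : (Xq.card : ℝ) * H ^ 2 ≤
        2 * (C₀ * R ^ (lo m * δ) * (2 * a) ^ 2 * (4 * (M * b)) * R ^ (((m : ℝ) + 1) / 2)) := by
      linarith
    refine h11.trans (le_of_eq ?_)
    ring
  -- the sum over the cubes
  have h1 : (X.card : ℝ) = ∑ q ∈ X.image (cb (Real.sqrt R)),
      ((X.filter (fun z => cb (Real.sqrt R) z = q)).card : ℝ) := by
    exact_mod_cast Finset.card_eq_sum_card_image (cb (Real.sqrt R)) X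
  have hR2 : R ^ (lo m * δ) ≤ R ^ (2 * lo m * δ) := by
    refine Real.rpow_le_rpow_of_exponent_le hR ?_
    have : 0 ≤ lo m * δ := by
      unfold lo
      positivity
    linarith
  have h8 : 0 ≤ R ^ (((m : ℝ) + 1) / 2) := Real.rpow_nonneg hR0.le _
  have hR3 : 0 ≤ R ^ (lo m * δ) := Real.rpow_nonneg hR0.le _
  rw [h1, Finset.sum_mul]
  calc _ ≤ ∑ q ∈ X.image (cb (Real.sqrt R)),
        32 * C₀ * R ^ (lo m * δ) * M * b * a ^ 2 * R ^ (((m : ℝ) + 1) / 2) :=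
        Finset.sum_le_sum key
    _ = 32 * C₀ * R ^ (lo m * δ) * ((X.image (cb (Real.sqrt R))).card * M * b *
        a ^ 2 * R ^ (((m : ℝ) + 1) / 2)) := by
        rw [Finset.sum_const, nsmul_eq_mul]
        ring
    _ ≤ (32 * C₀ + 2 * D) * R ^ (2 * lo m * δ) * ((X.image (cb (Real.sqrt R))).card * M * b *
        a ^ 2 * R ^ (((m : ℝ) + 1) / 2)) := by
        refine mul_le_mul_of_nonneg_right ?_ (by positivity)
        exact mul_le_mul (by linarith) hR2 hR3 (by linarith)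
    _ = _ := by ring

end Pool.Agent.H33.G
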