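import Pool.Agent.H83.G.Targets1

/-!
Row WT1 of the board g_modules: elementary properties of the weights.
-/

set_option autoImplicit false

namespace Pool.Agent.H33.G

open MeasureTheory Set
open Pool.Agent.H83.G

theorem pf_WT1 : T_WT1 := by
  intro m N
  have hb : ∀ x : Z m, 1 ≤ 1 + ‖x‖ := fun x => by linarith [norm_nonneg x]
  have hb0 : ∀ x : Z m, 0 < 1 + ‖x‖ := fun x => by linarith [norm_nonneg x]
  refine ⟨fun x => ⟨?_, ?_⟩, ?_, fun x y => ?_, fun x y h => ?_, fun x M h => ?_,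
    fun x M => ?_, fun x c hc hc1 => ⟨?_, ?_⟩⟩
  · exact inv_pos.2 (pow_pos (hb0 x) N)
  · exact inv_le_one_of_one_le₀ (one_le_pow₀ (hb x))
  · unfold wt
    exact Continuous.inv₀ (by fun_prop) fun x => (pow_pos (hb0 x) N).ne'
  · unfold wt
    rw [← mul_inv, ← mul_pow]
    refine inv_anti₀ (pow_pos (hb0 _) N) (pow_le_pow_left₀ (hb0 _).le ?_ N)
    have h1 := norm_add_le x y
    nlinarith [norm_nonneg x, norm_nonneg y]
  · unfold wt
    exact inv_anti₀ (pow_pos (hb0 _) N) (pow_le_pow_left₀ (hb0 _).le (by linarith) N)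
  · unfold wt
    exact inv_anti₀ (pow_pos (hb0 _) N) (pow_le_pow_right₀ (hb x) h)
  · unfold wt
    rw [pow_add, mul_inv]
  · unfold wt
    refine inv_anti₀ (pow_pos (hb0 _) N) (pow_le_pow_left₀ (hb0 _).le ?_ N)
    rw [norm_smul, Real.norm_of_nonneg hc.le]
    nlinarith [norm_nonneg x]
  · unfold wt
    rw [← div_eq_mul_inv, div_le_iff₀ (pow_pos (hb0 _) N), ← div_eq_inv_mul,
      le_div_iff₀ (pow_pos (hb0 _) N), ← mul_pow]
    refine pow_le_pow_left₀ (mul_pos hc (hb0 _)).le ?_ N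
    rw [norm_smul, Real.norm_of_nonneg hc.le]
    nlinarith [norm_nonneg x]

end Pool.Agent.H33.G
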